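import Mathlib
import Pool.Agent.X172.FSigma

set_option autoImplicit false

namespace Pool.Agent.Results.MP_26524f_gt.SOneGammaOmegaFSigma

/-- `𝒰` is an open `γ`-cover of `X`: a nontrivial infinite family of relatively open subsets of `X`
such that every point of `X` belongs to all but finitely many members (and the family covers). -/
def IsOpenGammaCover (X : Set ℝ) (𝒰 : Set (Set ℝ)) : Prop :=
  (∀ U ∈ 𝒰, ∃ V : Set ℝ, IsOpen V ∧ U = V ∩ X) ∧ X ∉ 𝒰 ∧ X ⊆ ⋃₀ 𝒰 ∧ 𝒰.Infinite ∧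
    ∀ x ∈ X, {U ∈ 𝒰 | x ∉ U}.Finite

/-- `𝒰` is an open `ω`-cover of `X`: a nontrivial family of relatively open subsets of `X` such
that every finite subset of `X` is contained in some member (and the family covers). -/
def IsOpenOmegaCover (X : Set ℝ) (𝒰 : Set (Set ℝ)) : Prop :=
  (∀ U ∈ 𝒰, ∃ V : Set ℝ, IsOpen V ∧ U = V ∩ X) ∧ X ∉ 𝒰 ∧ X ⊆ ⋃₀ 𝒰 ∧
    ∀ F : Finset ℝ, (↑F : Set ℝ) ⊆ X → ∃ U ∈ 𝒰, (↑F : Set ℝ) ⊆ U

/-- The selection principle `S₁(Γ, Ω)`. -/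
def SOneGammaOmega (X : Set ℝ) : Prop :=
  ∀ 𝒰 : ℕ → Set (Set ℝ), (∀ n, IsOpenGammaCover X (𝒰 n)) →
    ∃ U : ℕ → Set ℝ, (∀ n, U n ∈ 𝒰 n) ∧ IsOpenOmegaCover X (Set.range U)

/-- `S₁(Γ, Ω)` is hereditary for `F_σ` subsets. -/
theorem result (X Y : Set ℝ) (K : ℕ → Set ℝ) (hK : ∀ n, IsClosed (K n))
    (hY : Y = X ∩ ⋃ n, K n) (hX : SOneGammaOmega X) : SOneGammaOmega Y := by
  have key : Pool.Agent.X172.FSigma.Sel (fun ℱ => ∃ U, ℱ = {U}) Y := by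
    refine Pool.Agent.X172.FSigma.main (fun U => ⟨U, rfl⟩) ?_ ?_ K hK hY ?_
    · rintro g _ ⟨U, rfl⟩
      exact ⟨g U, Set.image_singleton⟩
    · rintro _ ⟨U, rfl⟩
      exact Set.finite_singleton U
    · intro 𝒰 h𝒰
      obtain ⟨U, hU, _, h2, h3, h4⟩ := hX 𝒰 h𝒰
      have hr : (⋃ n, ({U n} : Set (Set ℝ))) = Set.range U := by
        ext A
        simp [eq_comm]
      refine ⟨fun n => {U n}, fun n => ⟨⟨U n, rfl⟩, by simpa using hU n⟩, ?_, ?_, ?_⟩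
      · rw [hr]; exact h2
      · rw [hr]; exact h3
      · rw [hr]; exact h4
  intro 𝒰 h𝒰
  obtain ⟨ℱ, hℱ, h2, h3, h4⟩ := key 𝒰 h𝒰
  choose U hU using fun n => (hℱ n).1
  have hUmem : ∀ n, U n ∈ 𝒰 n := fun n => (hℱ n).2 (by rw [hU n]; rfl)
  have hr : (⋃ n, ℱ n) = Set.range U := by
    ext A
    simp [hU, eq_comm]
  rw [hr] at h2 h3 h4
  refine ⟨U, hUmem, ?_, h2, h3, h4⟩
  rintro _ ⟨n, rfl⟩
  exact (h𝒰 n).1 _ (hUmem n)

end Pool.Agent.Results.MP_26524f_gt.SOneGammaOmegaFSigma
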